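import Pool.Agent.Lib.MP_876e19_co_ups.FlowInt

/-!
# Uniform path systems: rounding of flows by target (helper22)

A family of real flows, one towards every target `y`, on geodesic arcs, with constant load, is
replaced by a family of integral flows (every arc floor or ceiling).  The error is an edge error
`ρ` and the sum of its squares over the edges is at most `n (n - 1) / 4`.
-/

set_option autoImplicit false

open Finset

namespace Pool.Agent.UPS.FR

open Pool.Agent.UPS3

/-- the number of fractional arcs at a node is not one -/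
lemma frac_deg {E N : Type*} [Fintype E] [DecidableEq E] [DecidableEq N]
    (s t : E → N) (f : E → ℝ) (b : N → ℤ)
    (h : ∀ v, ∑ e with t e = v, f e - ∑ e with s e = v, f e = b v) (v : N) :
    ((univ.filter fun e => Int.fract (f e) ≠ 0).filter fun e => t e = v).card +
      ((univ.filter fun e => Int.fract (f e) ≠ 0).filter fun e => s e = v).card ≠ 1 := by
  classical
  set F : Finset E := univ.filter fun e => Int.fract (f e) ≠ 0 with hF
  intro hv
  have hnotF : ∀ e, e ∉ F → f e ∈ ZZ := by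
    intro e he
    rw [mem_ZZ]
    by_contra hcon
    exact he (by simp [hF, hcon])
  have hsplit : ∀ u : E → N, ∑ e with u e = v, f e - ∑ e ∈ F.filter (fun e => u e = v), f e
      ∈ ZZ := by
    intro u
    have : ∑ e with u e = v, f e = ∑ e ∈ F.filter (fun e => u e = v), f e
        + ∑ e ∈ (Fᶜ).filter (fun e => u e = v), f e := by
      rw [← sum_union]
      · congr 1
        rw [← filter_union, union_compl]
      · exact disjoint_filter_filter disjoint_compl_right
    rw [this, add_sub_cancel_left]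
    refine sum_mem fun e he => hnotF e ?_
    rw [mem_filter, mem_compl] at he
    exact he.1
  have hb : ∑ e with t e = v, f e - ∑ e with s e = v, f e ∈ ZZ := by
    rw [h v]; exact ⟨b v, rfl⟩
  have hmain : ∑ e ∈ F.filter (fun e => t e = v), f e
      - ∑ e ∈ F.filter (fun e => s e = v), f e ∈ ZZ := by
    have h3 := add_mem (sub_mem hb (hsplit t)) (hsplit s)
    have h4 : ∑ e with t e = v, f e - ∑ e with s e = v, f e -
        (∑ e with t e = v, f e - ∑ e ∈ F.filter (fun e => t e = v), f e) +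
        (∑ e with s e = v, f e - ∑ e ∈ F.filter (fun e => s e = v), f e) =
        ∑ e ∈ F.filter (fun e => t e = v), f e - ∑ e ∈ F.filter (fun e => s e = v), f e := by ring
    rw [← h4]
    exact h3
  rcases Nat.add_eq_one_iff.1 hv with ⟨h0, h1⟩ | ⟨h1, h0⟩
  · rw [card_eq_zero] at h0
    obtain ⟨e, he⟩ := card_eq_one.1 h1
    rw [h0, he, sum_empty, sum_singleton, zero_sub, neg_mem_iff, mem_ZZ] at hmain
    have heF : e ∈ F := (mem_filter.1 (he ▸ mem_singleton_self e)).1
    rw [hF, mem_filter] at heF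
    exact heF.2 hmain
  · rw [card_eq_zero] at h0
    obtain ⟨e, he⟩ := card_eq_one.1 h1
    rw [h0, he, sum_empty, sum_singleton, sub_zero, mem_ZZ] at hmain
    have heF : e ∈ F := (mem_filter.1 (he ▸ mem_singleton_self e)).1
    rw [hF, mem_filter] at heF
    exact heF.2 hmain

/-- Moving a real vector in a direction supported on its fractional entries until one more
entry is integral (non-negative step). -/
lemma step {E : Type*} [Fintype E] (f δ : E → ℝ)
    (hδ : ∀ e, Int.fract (f e) = 0 → δ e = 0) (hne : ∃ e, δ e ≠ 0) :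
    ∃ r : ℝ, 0 ≤ r ∧ (∀ e, (⌊f e⌋ : ℝ) ≤ f e + r * δ e ∧ f e + r * δ e ≤ (⌈f e⌉ : ℝ)) ∧
      ∃ e, Int.fract (f e) ≠ 0 ∧ Int.fract (f e + r * δ e) = 0 := by
  classical
  let room : E → ℝ := fun e =>
    if 0 < δ e then ((⌈f e⌉ : ℝ) - f e) / δ e else ((⌊f e⌋ : ℝ) - f e) / δ e
  obtain ⟨e₁, he₁⟩ := hne
  obtain ⟨i, hi, himin⟩ := (univ.filter fun e => δ e ≠ 0).exists_min_image room
    ⟨e₁, by simp [he₁]⟩
  have hi' : δ i ≠ 0 := by simpa using hi
  have hroom0 : ∀ e, δ e ≠ 0 → 0 ≤ room e := by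
    intro e he
    simp only [room]
    split_ifs with h
    · exact div_nonneg (sub_nonneg.2 (Int.le_ceil _)) h.le
    · have h' : δ e < 0 := lt_of_le_of_ne (not_lt.1 h) he
      exact div_nonneg_of_nonpos (sub_nonpos.2 (Int.floor_le _)) h'.le
  refine ⟨room i, hroom0 i hi', ?_, i, fun h => hi' (hδ i h), ?_⟩
  · intro e
    by_cases he : δ e = 0
    · rw [he, mul_zero, add_zero]
      exact ⟨Int.floor_le _, Int.le_ceil _⟩
    · have hle : room i ≤ room e := himin e (by simp [he])
      have h0 : 0 ≤ room i := hroom0 i hi'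
      by_cases hpos : 0 < δ e
      · have h1 : room e * δ e = (⌈f e⌉ : ℝ) - f e := by
          simp only [room, if_pos hpos]; field_simp
        have h2 : room i * δ e ≤ room e * δ e := mul_le_mul_of_nonneg_right hle hpos.le
        have h3 : 0 ≤ room i * δ e := mul_nonneg h0 hpos.le
        constructor
        · have := Int.floor_le (f e); linarith
        · linarith
      · have hneg : δ e < 0 := lt_of_le_of_ne (not_lt.1 hpos) he
        have h1 : room e * δ e = (⌊f e⌋ : ℝ) - f e := by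
          simp only [room, if_neg hpos]; field_simp
        have h2 : room e * δ e ≤ room i * δ e := mul_le_mul_of_nonpos_right hle hneg.le
        have h3 : room i * δ e ≤ 0 := mul_nonpos_of_nonneg_of_nonpos h0 hneg.le
        constructor
        · linarith
        · have := Int.le_ceil (f e); linarith
  · by_cases hpos : 0 < δ i
    · have h1 : room i * δ i = (⌈f i⌉ : ℝ) - f i := by
        simp only [room, if_pos hpos]; field_simp
      rw [h1, add_sub_cancel]
      exact Int.fract_intCast _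
    · have h1 : room i * δ i = (⌊f i⌋ : ℝ) - f i := by
        simp only [room, if_neg hpos]; field_simp
      rw [h1, add_sub_cancel]
      exact Int.fract_intCast _

variable {V : Type*} [Fintype V] [DecidableEq V]

/-- **Kernel counting.** -/
lemma kernel (H : Finset (V × V × V)) (φ : V → V → ℝ)
    (hφ : ∀ e ∈ H, φ e.1 e.2.1 - φ e.1 e.2.2 = 1)
    (hdeg : ∀ y v, (H.filter fun e => (e.1, e.2.2) = (y, v)).card +
      (H.filter fun e => (e.1, e.2.1) = (y, v)).card ≠ 1)
    (hcard : Fintype.card V * (Fintype.card V - 1) < H.card) :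
    ∃ δ : V × V × V → ℝ, (∀ e, e ∉ H → δ e = 0) ∧ (∃ e, δ e ≠ 0) ∧
      (∀ y v, ∑ w, δ (y, v, w) = ∑ w, δ (y, w, v)) ∧ (∀ v, ∑ y, ∑ w, δ (y, v, w) = 0) := by
  classical
  have hHne : H.Nonempty := card_pos.1 (lt_of_le_of_lt (Nat.zero_le _) hcard)
  obtain ⟨e0, he0⟩ := hHne
  have hV : Nonempty V := ⟨e0.1⟩
  have hn1 : 1 ≤ Fintype.card V := Fintype.card_pos
  let N : V → Finset V := fun y =>
    univ.filter fun v => ∃ e ∈ H, e.1 = y ∧ (e.2.1 = v ∨ e.2.2 = v)
  have hmemN : ∀ y v, v ∈ N y ↔ ∃ e ∈ H, e.1 = y ∧ (e.2.1 = v ∨ e.2.2 = v) := by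
    intro y v; simp only [N, mem_filter, mem_univ, true_and]
  let r : V → V := fun y => if h : (N y).Nonempty then h.choose else y
  have hr : ∀ y, (N y).Nonempty → r y ∈ N y := by
    intro y h
    simp only [r, dif_pos h]
    exact h.choose_spec
  have hN : ∀ y, (N y).card ≤ (H.filter fun e => e.1 = y).card := by
    intro y
    have h1 : ∑ v ∈ N y, ((H.filter fun e => (e.1, e.2.2) = (y, v)).card +
        (H.filter fun e => (e.1, e.2.1) = (y, v)).card) = 2 * (H.filter fun e => e.1 = y).card := by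
      rw [sum_add_distrib, two_mul]
      congr 1
      · rw [card_eq_sum_card_fiberwise (f := fun e : V × V × V => e.2.2) (t := N y)]
        · refine sum_congr rfl fun v _ => ?_
          rw [filter_filter]
          congr 1
          ext e
          simp only [mem_filter, Prod.mk.injEq]
        · intro e he
          have he' := mem_filter.1 (mem_coe.1 he)
          exact mem_coe.2 ((hmemN _ _).2 ⟨e, he'.1, he'.2, Or.inr rfl⟩)
      · rw [card_eq_sum_card_fiberwise (f := fun e : V × V × V => e.2.1) (t := N y)]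
        · refine sum_congr rfl fun v _ => ?_
          rw [filter_filter]
          congr 1
          ext e
          simp only [mem_filter, Prod.mk.injEq]
        · intro e he
          have he' := mem_filter.1 (mem_coe.1 he)
          exact mem_coe.2 ((hmemN _ _).2 ⟨e, he'.1, he'.2, Or.inl rfl⟩)
    have h2 : ∑ v ∈ N y, 2 ≤ ∑ v ∈ N y, ((H.filter fun e => (e.1, e.2.2) = (y, v)).card +
        (H.filter fun e => (e.1, e.2.1) = (y, v)).card) := by
      refine sum_le_sum fun v hv => ?_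
      have h3 := hdeg y v
      have h4 : 1 ≤ (H.filter fun e => (e.1, e.2.2) = (y, v)).card +
          (H.filter fun e => (e.1, e.2.1) = (y, v)).card := by
        obtain ⟨e, he, hey, h | h⟩ := (hmemN _ _).1 hv
        · have : 0 < (H.filter fun e => (e.1, e.2.1) = (y, v)).card :=
            card_pos.2 ⟨e, mem_filter.2 ⟨he, by rw [hey, h]⟩⟩
          omega
        · have : 0 < (H.filter fun e => (e.1, e.2.2) = (y, v)).card :=
            card_pos.2 ⟨e, mem_filter.2 ⟨he, by rw [hey, h]⟩⟩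
          omega
      omega
    rw [sum_const, smul_eq_mul, h1] at h2
    omega
  have hHsum : ∑ y, (H.filter fun e => e.1 = y).card = H.card := by
    rw [card_eq_sum_card_fiberwise (s := H) (f := fun e : V × V × V => e.1) (t := univ)]
    intro e _
    exact mem_coe.2 (mem_univ _)
  have hNe : ∀ y, ((N y).erase (r y)).card ≤ Fintype.card V - 1 := by
    intro y
    have : ((N y).erase (r y)).card ≤ ((univ : Finset V).erase (r y)).card :=
      card_le_card (erase_subset_erase _ (subset_univ _))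
    rwa [card_erase_of_mem (mem_univ _), card_univ] at this
  have hsmall : ∑ y, ((N y).erase (r y)).card + (Fintype.card V - 1) < H.card := by
    by_cases hex : ∃ y, N y = ∅
    · obtain ⟨y1, hy1⟩ := hex
      have h1 : ∑ y, ((N y).erase (r y)).card ≤ (Fintype.card V - 1) * (Fintype.card V - 1) := by
        rw [← add_sum_erase univ _ (mem_univ y1), hy1, erase_empty, card_empty, zero_add]
        refine (sum_le_sum fun y _ => hNe y).trans ?_
        rw [sum_const, smul_eq_mul, card_erase_of_mem (mem_univ _), card_univ]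
      obtain ⟨m, hm⟩ : ∃ m, Fintype.card V = m + 1 := ⟨Fintype.card V - 1, by omega⟩
      rw [hm] at h1 hcard ⊢
      simp only [Nat.add_sub_cancel] at h1 hcard ⊢
      nlinarith
    · push Not at hex
      have h1 : ∑ y, ((N y).erase (r y)).card + Fintype.card V = ∑ y, (N y).card := by
        have h2 : ∀ y, ((N y).erase (r y)).card + 1 = (N y).card := fun y =>
          card_erase_add_one (hr y (hex y))
        rw [← sum_congr rfl fun y _ => h2 y, sum_add_distrib, sum_const, smul_eq_mul, mul_one,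
          card_univ]
      have h3 : ∑ y, (N y).card ≤ H.card := by
        rw [← hHsum]; exact sum_le_sum fun y _ => hN y
      omega
  -- the linear maps
  let v0 : V := e0.1
  let ext : (H → ℝ) →ₗ[ℝ] (V × V × V → ℝ) :=
    { toFun := fun x e => if h : e ∈ H then x ⟨e, h⟩ else 0
      map_add' := by
        intro x y; funext e
        by_cases h : e ∈ H <;> simp [h]
      map_smul' := by
        intro r x; funext e
        by_cases h : e ∈ H <;> simp [h] }
  let rows : (V × V × V → ℝ) →ₗ[ℝ] ((Σ y : V, ↥((N y).erase (r y))) ⊕ ↥((univ : Finset V).erase v0) → ℝ) :=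
    { toFun := fun x => Sum.elim
        (fun p => ∑ w, x (p.1, (p.2 : V), w) - ∑ w, x (p.1, w, (p.2 : V)))
        (fun v => ∑ y, ∑ w, x (y, (v : V), w))
      map_add' := by
        intro x y; funext i
        rcases i with i | i
        · simp only [Sum.elim_inl, Pi.add_apply, sum_add_distrib]; ring
        · simp only [Sum.elim_inr, Pi.add_apply, sum_add_distrib]
      map_smul' := by
        intro c x; funext i
        rcases i with i | i
        · simp only [Sum.elim_inl, Pi.smul_apply, smul_eq_mul, ← mul_sum, RingHom.id_apply]; ring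
        · simp only [Sum.elim_inr, Pi.smul_apply, smul_eq_mul, ← mul_sum, RingHom.id_apply] }
  have hfin : Module.finrank ℝ ((Σ y : V, ↥((N y).erase (r y))) ⊕ ↥((univ : Finset V).erase v0) → ℝ)
      < Module.finrank ℝ (H → ℝ) := by
    rw [Module.finrank_fintype_fun_eq_card, Module.finrank_fintype_fun_eq_card,
      Fintype.card_coe, Fintype.card_sum, Fintype.card_sigma, Fintype.card_coe,
      card_erase_of_mem (mem_univ _), card_univ]
    simpa only [Fintype.card_coe] using hsmall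
  have hker := LinearMap.ker_ne_bot_of_finrank_lt (f := rows ∘ₗ ext) hfin
  obtain ⟨x, hx, hx0⟩ := (Submodule.ne_bot_iff _).1 hker
  have hrow : ∀ i, rows (ext x) i = 0 := fun i => congrFun (LinearMap.mem_ker.1 hx) i
  have hext0 : ∀ e, e ∉ H → ext x e = 0 := by
    intro e he
    simp [ext, he]
  have hc1 : ∀ y, ∀ v ∈ (N y).erase (r y), ∑ w, ext x (y, v, w) - ∑ w, ext x (y, w, v) = 0 :=
    fun y v hv => hrow (Sum.inl ⟨y, ⟨v, hv⟩⟩)
  have hc2 : ∀ y v, v ∉ N y → ∑ w, ext x (y, v, w) - ∑ w, ext x (y, w, v) = 0 := by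
    intro y v hv
    have h1 : ∑ w, ext x (y, v, w) = 0 := sum_eq_zero fun w _ => hext0 _ fun h =>
      hv ((hmemN _ _).2 ⟨_, h, rfl, Or.inl rfl⟩)
    have h2 : ∑ w, ext x (y, w, v) = 0 := sum_eq_zero fun w _ => hext0 _ fun h =>
      hv ((hmemN _ _).2 ⟨_, h, rfl, Or.inr rfl⟩)
    rw [h1, h2, sub_zero]
  have hc : ∀ y v, ∑ w, ext x (y, v, w) - ∑ w, ext x (y, w, v) = 0 := by
    intro y v
    have hoth : ∀ u, u ≠ r y → ∑ w, ext x (y, u, w) - ∑ w, ext x (y, w, u) = 0 := by
      intro u hu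
      by_cases huN : u ∈ N y
      · exact hc1 y u (mem_erase.2 ⟨hu, huN⟩)
      · exact hc2 y u huN
    by_cases hv : v = r y
    · have htot : ∑ u, (∑ w, ext x (y, u, w) - ∑ w, ext x (y, w, u)) = 0 := by
        rw [sum_sub_distrib, sub_eq_zero]
        exact sum_comm
      rw [← add_sum_erase univ _ (mem_univ (r y)),
        sum_eq_zero fun u hu => hoth u (mem_erase.1 hu).1, add_zero] at htot
      rw [hv]; exact htot
    · exact hoth v hv
  have hl1 : ∀ v, v ≠ v0 → ∑ y, ∑ w, ext x (y, v, w) = 0 := fun v hv =>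
    hrow (Sum.inr ⟨v, mem_erase.2 ⟨hv, mem_univ _⟩⟩)
  have htotal : ∑ v, ∑ y, ∑ w, ext x (y, v, w) = 0 := by
    rw [sum_comm]
    refine sum_eq_zero fun y _ => ?_
    have h1 : ∀ v w, ext x (y, v, w) = φ y v * ext x (y, v, w) - φ y w * ext x (y, v, w) := by
      intro v w
      by_cases h : (y, v, w) ∈ H
      · have := hφ _ h
        simp only at this
        rw [← sub_mul, this, one_mul]
      · rw [hext0 _ h]; ring
    rw [sum_congr rfl fun v _ => sum_congr rfl fun w _ => h1 v w]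
    simp only [sum_sub_distrib]
    have h2 : ∑ v, ∑ w, φ y w * ext x (y, v, w) = ∑ v, ∑ w, φ y v * ext x (y, w, v) := sum_comm
    rw [h2, ← sum_sub_distrib]
    refine sum_eq_zero fun v _ => ?_
    rw [← mul_sum, ← mul_sum, ← mul_sub, hc y v, mul_zero]
  refine ⟨ext x, hext0, ?_, fun y v => sub_eq_zero.1 (hc y v), ?_⟩
  · by_contra hcon
    push Not at hcon
    apply hx0
    funext e
    have := hcon e
    simpa [ext] using this
  · intro v
    by_cases hv : v = v0
    · rw [← add_sum_erase univ _ (mem_univ v0),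
        sum_eq_zero fun u hu => hl1 u (mem_erase.1 hu).1, add_zero] at htotal
      rw [hv]; exact htotal
    · exact hl1 v hv

/-- the arcs of a family with a fractional value -/
noncomputable def fr (f : V × V × V → ℝ) : Finset (V × V × V) :=
  univ.filter fun e => Int.fract (f e) ≠ 0

omit [DecidableEq V] in
lemma mem_fr {f : V × V × V → ℝ} {e : V × V × V} : e ∈ fr f ↔ Int.fract (f e) ≠ 0 := by
  simp only [fr, mem_filter, mem_univ, true_and]

omit [DecidableEq V] in
lemma sum_snd {β : Type*} [AddCommMonoid β] [DecidableEq V] (g : V × V × V → β) (y v : V) :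
    ∑ e with (e.1, e.2.2) = (y, v), g e = ∑ w, g (y, w, v) := by
  classical
  refine sum_bij' (fun e _ => e.2.1) (fun w _ => (y, w, v)) ?_ ?_ ?_ ?_ ?_
  · intro e _; exact mem_univ _
  · intro w _; exact mem_filter.2 ⟨mem_univ _, rfl⟩
  · intro e he
    have h := (mem_filter.1 he).2
    simp only [Prod.mk.injEq] at h
    rw [← h.1, ← h.2]
  · intro w _; rfl
  · intro e he
    have h := (mem_filter.1 he).2
    simp only [Prod.mk.injEq] at h
    rw [← h.1, ← h.2]

omit [DecidableEq V] in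
lemma sum_fst {β : Type*} [AddCommMonoid β] [DecidableEq V] (g : V × V × V → β) (y v : V) :
    ∑ e with (e.1, e.2.1) = (y, v), g e = ∑ w, g (y, v, w) := by
  classical
  refine sum_bij' (fun e _ => e.2.2) (fun w _ => (y, v, w)) ?_ ?_ ?_ ?_ ?_
  · intro e _; exact mem_univ _
  · intro w _; exact mem_filter.2 ⟨mem_univ _, rfl⟩
  · intro e he
    have h := (mem_filter.1 he).2
    simp only [Prod.mk.injEq] at h
    rw [← h.1, ← h.2]
  · intro w _; rfl
  · intro e he
    have h := (mem_filter.1 he).2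
    simp only [Prod.mk.injEq] at h
    rw [← h.1, ← h.2]

/-- degrees of the fractional arcs -/
lemma fr_deg (f : V × V × V → ℝ) (b : V → V → ℤ)
    (hb : ∀ y v, ∑ w, f (y, w, v) - ∑ w, f (y, v, w) = b y v) (y v : V) :
    ((fr f).filter fun e => (e.1, e.2.2) = (y, v)).card +
      ((fr f).filter fun e => (e.1, e.2.1) = (y, v)).card ≠ 1 := by
  have := frac_deg (fun e : V × V × V => (e.1, e.2.1)) (fun e : V × V × V => (e.1, e.2.2)) f
    (fun p => b p.1 p.2) (by
      rintro ⟨y, v⟩
      rw [sum_snd, sum_fst]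
      exact hb y v) (y, v)
  exact this

/-- **Stage 1.**  The load stays the same and at most `n (n - 1)` arcs are fractional. -/
theorem stage_one (f : V × V × V → ℝ) (φ : V → V → ℝ) (b : V → V → ℤ)
    (hφ : ∀ e, f e ≠ 0 → φ e.1 e.2.1 - φ e.1 e.2.2 = 1)
    (hb : ∀ y v, ∑ w, f (y, w, v) - ∑ w, f (y, v, w) = b y v) :
    ∃ g : V × V × V → ℝ, (∀ e, (⌊f e⌋ : ℝ) ≤ g e ∧ g e ≤ (⌈f e⌉ : ℝ)) ∧
      (∀ y v, ∑ w, g (y, w, v) - ∑ w, g (y, v, w) = b y v) ∧
      (∀ v, ∑ y, ∑ w, g (y, v, w) = ∑ y, ∑ w, f (y, v, w)) ∧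
      (fr g).card ≤ Fintype.card V * (Fintype.card V - 1) := by
  classical
  induction hm : (fr f).card using Nat.strong_induction_on generalizing f with
  | _ m IH =>
  by_cases hle : (fr f).card ≤ Fintype.card V * (Fintype.card V - 1)
  · exact ⟨f, fun e => ⟨Int.floor_le _, Int.le_ceil _⟩, hb, fun _ => rfl, hle⟩
  · obtain ⟨δ, h1, h2, h3, h4⟩ := kernel (fr f) φ
      (fun e he => hφ e fun h0 => mem_fr.1 he (by rw [h0, Int.fract_zero]))
      (fr_deg f b hb) (not_le.1 hle)
    obtain ⟨r, _, hr, i, hi, hi'⟩ := step f δ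
      (fun e he => h1 e fun h => mem_fr.1 h he) h2
    have hlt : (fr fun e => f e + r * δ e).card < (fr f).card := by
      apply card_lt_card
      rw [ssubset_iff_of_subset]
      · exact ⟨i, mem_fr.2 hi, fun h => mem_fr.1 h hi'⟩
      · intro e he
        by_contra hcon
        have h0 := h1 e hcon
        have he' := mem_fr.1 he
        rw [h0, mul_zero, add_zero] at he'
        exact hcon (mem_fr.2 he')
    obtain ⟨g, hg, hgb, hgl, hgc⟩ := IH _ (by rw [← hm]; exact hlt)
      (fun e => f e + r * δ e)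
      (by
        intro e he
        refine hφ e fun h0 => he ?_
        have : δ e = 0 := h1 e fun h => mem_fr.1 h (by rw [h0, Int.fract_zero])
        rw [h0, this, mul_zero, add_zero])
      (by
        intro y v
        rw [sum_add_distrib, sum_add_distrib, ← mul_sum, ← mul_sum]
        have h5 := hb y v
        have h6 := h3 y v
        linear_combination h5 - r * h6) rfl
    refine ⟨g, fun e => ⟨le_trans ?_ (hg e).1, le_trans (hg e).2 ?_⟩, hgb, fun v => ?_, hgc⟩
    · exact_mod_cast Int.le_floor.2 (hr e).1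
    · exact_mod_cast Int.ceil_le.2 (hr e).2
    · rw [hgl v]
      simp only [sum_add_distrib, ← mul_sum]
      rw [h4 v, mul_zero, add_zero]

/-- the potential: squares of the edge errors plus a concave term for the fractional arcs -/
noncomputable def pot (f g : V × V × V → ℝ) : ℝ :=
  ∑ u, ∑ w, (∑ y, ((g (y, u, w) + g (y, w, u)) - (f (y, u, w) + f (y, w, u)))) ^ 2 +
    2 * ∑ e, (g e - ⌊f e⌋) * (⌈f e⌉ - g e)

/-- the derivative of the potential in direction `δ` -/
noncomputable def dpot (f g δ : V × V × V → ℝ) : ℝ :=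
  ∑ u, ∑ w, 2 * (∑ y, ((g (y, u, w) + g (y, w, u)) - (f (y, u, w) + f (y, w, u)))) *
      (∑ y, (δ (y, u, w) + δ (y, w, u))) +
    2 * ∑ e, δ e * (⌈f e⌉ + ⌊f e⌋ - 2 * g e)

omit [DecidableEq V] in
lemma dpot_neg (f g δ : V × V × V → ℝ) : dpot f g (fun e => - δ e) = - dpot f g δ := by
  unfold dpot
  have h1 : ∀ u w : V, ∑ y, (- δ (y, u, w) + - δ (y, w, u)) =
      - ∑ y, (δ (y, u, w) + δ (y, w, u)) := by
    intro u w
    rw [← sum_neg_distrib]
    exact sum_congr rfl fun y _ => by ring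
  simp only [h1, neg_mul, mul_neg, sum_neg_distrib]
  ring

omit [DecidableEq V] in
lemma sum_quad (a b c : V → V → ℝ) (r : ℝ) :
    ∑ u, ∑ w, (a u w + r * b u w + r ^ 2 * c u w) =
      ∑ u, ∑ w, a u w + r * ∑ u, ∑ w, b u w + r ^ 2 * ∑ u, ∑ w, c u w := by
  simp only [sum_add_distrib, ← mul_sum]

omit [DecidableEq V] in
lemma sum_quad' (a b c : V × V × V → ℝ) (r : ℝ) :
    ∑ e, (a e + r * b e - r ^ 2 * c e) = ∑ e, a e + r * ∑ e, b e - r ^ 2 * ∑ e, c e := by
  simp only [sum_add_distrib, sum_sub_distrib, ← mul_sum]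

omit [DecidableEq V] in
lemma pot_move (f g δ : V × V × V → ℝ) (r : ℝ)
    (hq : ∑ u, ∑ w, (∑ y, (δ (y, u, w) + δ (y, w, u))) ^ 2 = 2 * ∑ e, δ e ^ 2) :
    pot f (fun e => g e + r * δ e) = pot f g + r * dpot f g δ := by
  unfold pot dpot
  have h1 : ∀ u w : V, (∑ y, ((g (y, u, w) + r * δ (y, u, w) + (g (y, w, u) + r * δ (y, w, u))) -
      (f (y, u, w) + f (y, w, u)))) ^ 2 =
      (∑ y, ((g (y, u, w) + g (y, w, u)) - (f (y, u, w) + f (y, w, u)))) ^ 2 +
      r * (2 * (∑ y, ((g (y, u, w) + g (y, w, u)) - (f (y, u, w) + f (y, w, u)))) *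
      (∑ y, (δ (y, u, w) + δ (y, w, u)))) + r ^ 2 * (∑ y, (δ (y, u, w) + δ (y, w, u))) ^ 2 := by
    intro u w
    have h2 : ∑ y, ((g (y, u, w) + r * δ (y, u, w) + (g (y, w, u) + r * δ (y, w, u))) -
        (f (y, u, w) + f (y, w, u))) =
        ∑ y, ((g (y, u, w) + g (y, w, u)) - (f (y, u, w) + f (y, w, u))) +
        r * ∑ y, (δ (y, u, w) + δ (y, w, u)) := by
      rw [mul_sum, ← sum_add_distrib]
      exact sum_congr rfl fun y _ => by ring
    rw [h2]; ring
  have h3 : ∀ e, (g e + r * δ e - (⌊f e⌋ : ℝ)) * (⌈f e⌉ - (g e + r * δ e)) =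
      (g e - ⌊f e⌋) * (⌈f e⌉ - g e) + r * (δ e * (⌈f e⌉ + ⌊f e⌋ - 2 * g e)) - r ^ 2 * δ e ^ 2 := by
    intro e; ring
  have E1 := (sum_congr rfl fun u _ => sum_congr rfl fun w _ => h1 u w :
    ∑ u, ∑ w, (∑ y, ((g (y, u, w) + r * δ (y, u, w) + (g (y, w, u) + r * δ (y, w, u))) -
      (f (y, u, w) + f (y, w, u)))) ^ 2 = _).trans (sum_quad _ _ _ r)
  have E2 := (sum_congr rfl fun e _ => h3 e :
    ∑ e, (g e + r * δ e - (⌊f e⌋ : ℝ)) * (⌈f e⌉ - (g e + r * δ e)) = _).trans (sum_quad' _ _ _ r)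
  rw [E1, E2]
  linear_combination r ^ 2 * hq

/-- one circulation in the fractional arcs of one target -/
lemma circ (g : V × V × V → ℝ) (φ : V → V → ℝ) (b : V → V → ℤ)
    (hφ : ∀ e, g e ≠ 0 → φ e.1 e.2.1 - φ e.1 e.2.2 = 1)
    (hb : ∀ y v, ∑ w, g (y, w, v) - ∑ w, g (y, v, w) = b y v) (hne : (fr g).Nonempty) :
    ∃ δ : V × V × V → ℝ, (∀ e, e ∉ fr g → δ e = 0) ∧ (∃ e, δ e ≠ 0) ∧
      (∀ y v, ∑ w, δ (y, v, w) = ∑ w, δ (y, w, v)) ∧
      ∑ u, ∑ w, (∑ y, (δ (y, u, w) + δ (y, w, u))) ^ 2 = 2 * ∑ e, δ e ^ 2 := by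
  classical
  obtain ⟨e0, he0⟩ := hne
  have hs1 : ∀ (h : V × V → ℝ) (v : V), ∑ e with e.2 = v, h e = ∑ w, h (w, v) := by
    intro h v
    refine sum_bij' (fun e _ => e.1) (fun w _ => (w, v)) ?_ ?_ ?_ ?_ ?_
    · intro e _; exact mem_univ _
    · intro w _; exact mem_filter.2 ⟨mem_univ _, rfl⟩
    · intro e he
      rw [← (mem_filter.1 he).2]
    · intro w _; rfl
    · intro e he
      rw [← (mem_filter.1 he).2]
  have hs2 : ∀ (h : V × V → ℝ) (v : V), ∑ e with e.1 = v, h e = ∑ w, h (v, w) := by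
    intro h v
    refine sum_bij' (fun e _ => e.2) (fun w _ => (v, w)) ?_ ?_ ?_ ?_ ?_
    · intro e _; exact mem_univ _
    · intro w _; exact mem_filter.2 ⟨mem_univ _, rfl⟩
    · intro e he
      rw [← (mem_filter.1 he).2]
    · intro w _; rfl
    · intro e he
      rw [← (mem_filter.1 he).2]
  obtain ⟨δ', h1, ⟨p, hp⟩, h3⟩ := exists_circulation (fun e : V × V => e.1) (fun e : V × V => e.2)
    (univ.filter fun p : V × V => Int.fract (g (e0.1, p)) ≠ 0)
    ⟨e0.2, by simpa using mem_fr.1 he0⟩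
    (fun v => frac_deg (fun e : V × V => e.1) (fun e : V × V => e.2) (fun p => g (e0.1, p))
      (fun v => b e0.1 v) (fun v => by rw [hs1, hs2]; exact hb e0.1 v) v)
  have h3' : ∀ v, ∑ w, δ' (w, v) = ∑ w, δ' (v, w) := by
    intro v
    have := h3 v
    rw [hs1, hs2] at this
    linarith
  have hδ0 : ∀ q : V × V, δ' q ≠ 0 → Int.fract (g (e0.1, q)) ≠ 0 := by
    intro q hq hcon
    exact hq (h1 q (by simp [hcon]))
  have hanti : ∀ u w, δ' (u, w) * δ' (w, u) = 0 := by
    intro u w
    by_contra hcon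
    have ha : δ' (u, w) ≠ 0 := fun h => hcon (by rw [h, zero_mul])
    have hb' : δ' (w, u) ≠ 0 := fun h => hcon (by rw [h, mul_zero])
    have e1 := hφ (e0.1, u, w) fun h => hδ0 _ ha (by rw [h, Int.fract_zero])
    have e2 := hφ (e0.1, w, u) fun h => hδ0 _ hb' (by rw [h, Int.fract_zero])
    simp only at e1 e2
    linarith
  refine ⟨fun e => if e.1 = e0.1 then δ' e.2 else 0, ?_, ⟨(e0.1, p), ?_⟩, ?_, ?_⟩
  · rintro ⟨y, q⟩ he
    by_cases hy : y = e0.1
    · simp only [hy, if_true]
      by_contra hcon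
      exact he (mem_fr.2 (by rw [hy]; exact hδ0 q hcon))
    · simp only [hy, if_false]
  · simpa using hp
  · intro y v
    by_cases hy : y = e0.1
    · simp only [hy, if_true]
      exact (h3' v).symm
    · simp only [hy, if_false]
  · have hy : ∀ u w : V, ∑ y, ((if (y, u, w).1 = e0.1 then δ' (y, u, w).2 else 0) +
        (if (y, w, u).1 = e0.1 then δ' (y, w, u).2 else 0)) = δ' (u, w) + δ' (w, u) := by
      intro u w
      simp only [sum_add_distrib, sum_ite_eq', mem_univ, if_true]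
    simp only [hy]
    have hsq : ∀ u w, (δ' (u, w) + δ' (w, u)) ^ 2 = δ' (u, w) ^ 2 + δ' (w, u) ^ 2 := by
      intro u w
      have := hanti u w
      linear_combination 2 * this
    simp only [hsq, sum_add_distrib]
    have hcomm : ∑ u, ∑ w, δ' (w, u) ^ 2 = ∑ u, ∑ w, δ' (u, w) ^ 2 := sum_comm
    have hE : ∑ e : V × V × V, (if e.1 = e0.1 then δ' e.2 else 0) ^ 2 =
        ∑ u, ∑ w, δ' (u, w) ^ 2 := by
      rw [Fintype.sum_prod_type, Fintype.sum_eq_single e0.1]
      · simp only [if_true]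
        rw [Fintype.sum_prod_type]
      · intro y hy
        refine sum_eq_zero fun q _ => ?_
        rw [if_neg (show ¬ (y, q).1 = e0.1 from hy)]
        ring
    rw [hcomm, hE, two_mul]

lemma stage_two_aux (f g : V × V × V → ℝ) (φ : V → V → ℝ) (b : V → V → ℤ)
    (hφ : ∀ e, g e ≠ 0 → φ e.1 e.2.1 - φ e.1 e.2.2 = 1)
    (hb : ∀ y v, ∑ w, g (y, w, v) - ∑ w, g (y, v, w) = b y v)
    (hfg : ∀ e, (⌊f e⌋ : ℝ) ≤ g e ∧ g e ≤ (⌈f e⌉ : ℝ)) :
    ∃ h : V × V × V → ℤ, (∀ e, ⌊f e⌋ ≤ h e ∧ h e ≤ ⌈f e⌉) ∧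
      (∀ y v, ∑ w, h (y, w, v) - ∑ w, h (y, v, w) = b y v) ∧
      pot f (fun e => (h e : ℝ)) ≤ pot f g := by
  classical
  induction hm : (fr g).card using Nat.strong_induction_on generalizing g with
  | _ m IH =>
  by_cases hemp : (fr g).Nonempty
  · obtain ⟨δ, h1, h2, h3, h4⟩ := circ g φ b hφ hb hemp
    -- choose the sign
    obtain ⟨ε, e1, e2, e3, e4, e5⟩ : ∃ ε : V × V × V → ℝ, (∀ e, e ∉ fr g → ε e = 0) ∧
        (∃ e, ε e ≠ 0) ∧ (∀ y v, ∑ w, ε (y, v, w) = ∑ w, ε (y, w, v)) ∧
        ∑ u, ∑ w, (∑ y, (ε (y, u, w) + ε (y, w, u))) ^ 2 = 2 * ∑ e, ε e ^ 2 ∧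
        dpot f g ε ≤ 0 := by
      by_cases hs : dpot f g δ ≤ 0
      · exact ⟨δ, h1, h2, h3, h4, hs⟩
      · refine ⟨fun e => - δ e, fun e he => neg_eq_zero.2 (h1 e he), ?_, ?_, ?_, ?_⟩
        · obtain ⟨e, he⟩ := h2
          exact ⟨e, neg_ne_zero.2 he⟩
        · intro y v
          simp only [sum_neg_distrib, h3 y v]
        · have h5 : ∀ u w : V, ∑ y, (- δ (y, u, w) + - δ (y, w, u)) =
              - ∑ y, (δ (y, u, w) + δ (y, w, u)) := by
            intro u w
            rw [← sum_neg_distrib]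
            exact sum_congr rfl fun y _ => by ring
          simp only [h5, neg_sq, h4]
        · rw [dpot_neg]; linarith [not_le.1 hs]
    obtain ⟨r, hr0, hr, i, hi, hi'⟩ := step g ε
      (fun e he => e1 e fun h => mem_fr.1 h he) e2
    have hlt : (fr fun e => g e + r * ε e).card < (fr g).card := by
      apply card_lt_card
      rw [ssubset_iff_of_subset]
      · exact ⟨i, mem_fr.2 hi, fun h => mem_fr.1 h hi'⟩
      · intro e he
        by_contra hcon
        have h0 := e1 e hcon
        have he' := mem_fr.1 he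
        rw [h0, mul_zero, add_zero] at he'
        exact hcon (mem_fr.2 he')
    obtain ⟨h, hh1, hh2, hh3⟩ := IH _ (by rw [← hm]; exact hlt) (fun e => g e + r * ε e)
      (by
        intro e he
        refine hφ e fun h0 => he ?_
        have : ε e = 0 := e1 e fun h => mem_fr.1 h (by rw [h0, Int.fract_zero])
        rw [h0, this, mul_zero, add_zero])
      (by
        intro y v
        rw [sum_add_distrib, sum_add_distrib, ← mul_sum, ← mul_sum]
        have h5 := hb y v
        have h6 := e3 y v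
        linear_combination h5 - r * h6)
      (by
        intro e
        have h7 : (⌊f e⌋ : ℝ) ≤ ⌊g e⌋ := by exact_mod_cast Int.le_floor.2 (hfg e).1
        have h8 : (⌈g e⌉ : ℝ) ≤ ⌈f e⌉ := by exact_mod_cast Int.ceil_le.2 (hfg e).2
        exact ⟨h7.trans (hr e).1, (hr e).2.trans h8⟩) rfl
    refine ⟨h, hh1, hh2, hh3.trans ?_⟩
    rw [pot_move f g ε r e4]
    have := mul_nonpos_of_nonneg_of_nonpos hr0 e5
    linarith
  · rw [not_nonempty_iff_eq_empty] at hemp
    have hint : ∀ e, g e = (⌊g e⌋ : ℝ) := by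
      intro e
      have he : e ∉ fr g := by rw [hemp]; exact notMem_empty e
      have h0 : Int.fract (g e) = 0 := by
        by_contra hcon
        exact he (mem_fr.2 hcon)
      have h2 := Int.self_sub_floor (g e)
      rw [h0] at h2
      linarith
    refine ⟨fun e => ⌊g e⌋, fun e => ⟨?_, ?_⟩, fun y v => ?_, le_of_eq ?_⟩
    · have := (hfg e).1
      rw [hint e] at this
      exact_mod_cast this
    · have := (hfg e).2
      rw [hint e] at this
      exact_mod_cast this
    · have h1 := hb y v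
      rw [sum_congr rfl fun w _ => hint (y, w, v), sum_congr (g := fun w => (⌊g (y, v, w)⌋ : ℝ)) rfl
        fun w _ => hint (y, v, w)] at h1
      exact_mod_cast h1
    · congr 1
      funext e
      exact (hint e).symm

/-- **Stage 2.**  Rounding of the fractional arcs. -/
theorem stage_two (f : V × V × V → ℝ) (φ : V → V → ℝ) (b : V → V → ℤ)
    (hφ : ∀ e, f e ≠ 0 → φ e.1 e.2.1 - φ e.1 e.2.2 = 1)
    (hb : ∀ y v, ∑ w, f (y, w, v) - ∑ w, f (y, v, w) = b y v) :
    ∃ h : V × V × V → ℤ, (∀ e, ⌊f e⌋ ≤ h e ∧ h e ≤ ⌈f e⌉) ∧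
      (∀ y v, ∑ w, h (y, w, v) - ∑ w, h (y, v, w) = b y v) ∧
      ∑ u, ∑ w, (∑ y, (((h (y, u, w) : ℝ) + h (y, w, u)) - (f (y, u, w) + f (y, w, u)))) ^ 2 ≤
        (fr f).card / 2 := by
  classical
  obtain ⟨h, h1, h2, h3⟩ := stage_two_aux f f φ b hφ hb (fun e => ⟨Int.floor_le _, Int.le_ceil _⟩)
  refine ⟨h, h1, h2, ?_⟩
  have h4 : 0 ≤ ∑ e, ((h e : ℝ) - ⌊f e⌋) * (⌈f e⌉ - (h e : ℝ)) := by
    refine sum_nonneg fun e _ => mul_nonneg ?_ ?_
    · have : (⌊f e⌋ : ℝ) ≤ h e := by exact_mod_cast (h1 e).1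
      linarith
    · have : (h e : ℝ) ≤ ⌈f e⌉ := by exact_mod_cast (h1 e).2
      linarith
  have h5 : ∑ e, (f e - ⌊f e⌋) * (⌈f e⌉ - f e) ≤ (fr f).card / 4 := by
    have h6 : ∀ e, (f e - ⌊f e⌋) * (⌈f e⌉ - f e) ≤ if e ∈ fr f then (1 / 4 : ℝ) else 0 := by
      intro e
      by_cases he : e ∈ fr f
      · rw [if_pos he]
        have h7 : (⌈f e⌉ : ℝ) ≤ ⌊f e⌋ + 1 := by exact_mod_cast Int.ceil_le_floor_add_one _
        have h8 := Int.floor_le (f e)
        have h9 : (f e - ⌊f e⌋) * (⌈f e⌉ - f e) ≤ (f e - ⌊f e⌋) * (⌊f e⌋ + 1 - f e) :=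
          mul_le_mul_of_nonneg_left (by linarith) (by linarith)
        nlinarith [sq_nonneg (f e - ⌊f e⌋ - 1 / 2)]
      · rw [if_neg he]
        have h7 : Int.fract (f e) = 0 := by
          by_contra hcon
          exact he (mem_fr.2 hcon)
        have h8 := Int.self_sub_floor (f e)
        rw [h7] at h8
        rw [h8, zero_mul]
    refine (sum_le_sum fun e _ => h6 e).trans (le_of_eq ?_)
    rw [← sum_filter, sum_const, nsmul_eq_mul]
    have : (univ.filter fun e => e ∈ fr f) = fr f := by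
      ext e; simp
    rw [this]; ring
  have h10 : pot f f = 2 * ∑ e, (f e - ⌊f e⌋) * (⌈f e⌉ - f e) := by
    unfold pot
    simp
  rw [h10] at h3
  unfold pot at h3
  linarith

/-- **Rounding of flows by target.** -/
theorem flow_round_all (G : SimpleGraph V) (F : V → V → V → ℝ) (L : ℝ)
    (hpos : ∀ y u w, 0 ≤ F y u w)
    (hsupp : ∀ y u w, F y u w ≠ 0 → G.Adj u w ∧ G.dist u y = G.dist w y + 1)
    (hcons : ∀ y u, u ≠ y → ∑ w, F y u w = 1 + ∑ w, F y w u)
    (hload : ∀ v, ∑ y, ∑ w, F y v w = L) :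
    ∃ (F' : V → V → V → ℕ) (ρ : V → V → ℝ),
      (∀ y u w, F' y u w ≠ 0 → G.Adj u w ∧ G.dist u y = G.dist w y + 1) ∧
      (∀ y u, u ≠ y → ∑ w, F' y u w = 1 + ∑ w, F' y w u) ∧
      (∀ y u w, ⌊F y u w⌋ ≤ (F' y u w : ℤ) ∧ (F' y u w : ℤ) ≤ ⌈F y u w⌉) ∧
      (∀ u w, ρ u w = ρ w u) ∧ (∀ u w, ¬ G.Adj u w → ρ u w = 0) ∧
      (∀ v, 2 * ((∑ y, ∑ w, (F' y v w : ℝ)) - L) = ∑ w, ρ v w) ∧
      ∑ v, ∑ w, ρ v w ^ 2 ≤ (Fintype.card V : ℝ) * (Fintype.card V - 1) / 2 := by
  classical
  let f : V × V × V → ℝ := fun e => F e.1 e.2.1 e.2.2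
  let φ : V → V → ℝ := fun y u => G.dist u y
  -- no flow leaves the target
  have hout : ∀ y w, F y y w = 0 := by
    intro y w
    by_contra hcon
    have := (hsupp y y w hcon).2
    rw [SimpleGraph.dist_self] at this
    omega
  have htar : ∀ y, ∑ w, F y w y = Fintype.card V - 1 := by
    intro y
    have h1 : ∑ u, ∑ w, F y u w = ∑ u, ∑ w, F y w u := sum_comm
    rw [← add_sum_erase univ _ (mem_univ y), ← add_sum_erase univ (fun u => ∑ w, F y w u)
      (mem_univ y), sum_eq_zero fun w _ => hout y w, zero_add,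
      sum_congr rfl fun u hu => hcons y u (mem_erase.1 hu).1, sum_add_distrib, sum_const,
      nsmul_eq_mul, mul_one, card_erase_of_mem (mem_univ _), card_univ] at h1
    have h2 : 1 ≤ Fintype.card V := Fintype.card_pos_iff.2 ⟨y⟩
    push_cast [Nat.cast_sub h2] at h1
    linarith
  let b : V → V → ℤ := fun y v => if v = y then (Fintype.card V : ℤ) - 1 else -1
  have hb : ∀ y v, ∑ w, f (y, w, v) - ∑ w, f (y, v, w) = b y v := by
    intro y v
    simp only [f, b]
    by_cases hv : v = y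
    · rw [if_pos hv, hv, htar y, sum_eq_zero fun w _ => hout y w, sub_zero]
      push_cast; ring
    · rw [if_neg hv, hcons y v hv]
      push_cast; ring
  have hφ : ∀ e, f e ≠ 0 → φ e.1 e.2.1 - φ e.1 e.2.2 = 1 := by
    intro e he
    have := (hsupp _ _ _ he).2
    simp only [φ, this]
    push_cast; ring
  obtain ⟨g, g1, g2, g3, g4⟩ := stage_one f φ b hφ hb
  have hg0 : ∀ e, g e ≠ 0 → f e ≠ 0 := by
    intro e he hf
    apply he
    have := g1 e
    rw [hf] at this
    simp only [Int.floor_zero, Int.ceil_zero, Int.cast_zero] at this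
    exact le_antisymm this.2 this.1
  obtain ⟨h, h1, h2, h3⟩ := stage_two g φ b (fun e he => hφ e (hg0 e he)) g2
  have hh : ∀ e, ⌊f e⌋ ≤ h e ∧ h e ≤ ⌈f e⌉ := fun e =>
    ⟨(Int.le_floor.2 (g1 e).1).trans (h1 e).1, (h1 e).2.trans (Int.ceil_le.2 (g1 e).2)⟩
  have hnn : ∀ e, 0 ≤ h e := fun e =>
    (Int.floor_nonneg.2 (hpos _ _ _)).trans (hh e).1
  have hh0 : ∀ e, h e ≠ 0 → f e ≠ 0 := by
    intro e he hf
    apply he
    have := hh e
    rw [hf] at this
    simp only [Int.floor_zero, Int.ceil_zero] at this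
    exact le_antisymm this.2 this.1
  have hcast : ∀ e, ((h e).toNat : ℤ) = h e := fun e => Int.toNat_of_nonneg (hnn e)
  have hcastR : ∀ e, ((h e).toNat : ℝ) = h e := fun e => by exact_mod_cast hcast e
  refine ⟨fun y u w => (h (y, u, w)).toNat, fun u w =>
    ∑ y, (((h (y, u, w) : ℝ) + h (y, w, u)) - (g (y, u, w) + g (y, w, u))), ?_, ?_, ?_, ?_, ?_,
    ?_, ?_⟩
  · intro y u w hne
    have : h (y, u, w) ≠ 0 := fun h0 => hne (by simp [h0])
    exact hsupp _ _ _ (hh0 _ this)
  · intro y u hu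
    have h4 := h2 y u
    simp only [b, if_neg hu] at h4
    zify
    simp only [hcast]
    linarith
  · intro y u w
    simp only [hcast]
    exact hh (y, u, w)
  · intro u w
    exact sum_congr rfl fun y _ => by ring
  · intro u w huw
    refine sum_eq_zero fun y _ => ?_
    have z1 : ∀ u w, ¬ G.Adj u w → (h (y, u, w) : ℝ) = 0 ∧ g (y, u, w) = 0 := by
      intro u w huw
      have hf : f (y, u, w) = 0 := by
        by_contra hcon
        exact huw (hsupp _ _ _ hcon).1
      constructor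
      · have : h (y, u, w) = 0 := by
          by_contra hcon
          exact hh0 _ hcon hf
        exact_mod_cast this
      · by_contra hcon
        exact hg0 _ hcon hf
    obtain ⟨a1, a2⟩ := z1 u w huw
    obtain ⟨a3, a4⟩ := z1 w u fun h => huw h.symm
    rw [a1, a2, a3, a4]; ring
  · intro v
    simp only [hcastR]
    have h5 : ∀ y, ∑ w, ((((h (y, v, w) : ℝ) + h (y, w, v)) - (g (y, v, w) + g (y, w, v)))) =
        2 * (∑ w, (h (y, v, w) : ℝ) - ∑ w, g (y, v, w)) := by
      intro y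
      have e1 := h2 y v
      have e2 := g2 y v
      have e3 : ((∑ w, h (y, w, v) - ∑ w, h (y, v, w) : ℤ) : ℝ) = (b y v : ℝ) := by rw [e1]
      push_cast at e3
      simp only [sum_sub_distrib, sum_add_distrib]
      linarith
    have h6 : ∑ w, ∑ y, ((((h (y, v, w) : ℝ) + h (y, w, v)) - (g (y, v, w) + g (y, w, v)))) =
        2 * (∑ y, ∑ w, (h (y, v, w) : ℝ) - ∑ y, ∑ w, g (y, v, w)) := by
      rw [sum_comm, sum_congr rfl fun y _ => h5 y, ← mul_sum, sum_sub_distrib]
    rw [h6, g3 v]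
    have h7 : ∑ y, ∑ w, f (y, v, w) = L := hload v
    rw [h7]
  · refine h3.trans ?_
    have h6 : 1 ≤ Fintype.card V ∨ Fintype.card V = 0 := by omega
    have h7 : ((fr g).card : ℝ) ≤ ((Fintype.card V * (Fintype.card V - 1) : ℕ) : ℝ) := by
      exact_mod_cast g4
    have h8 : ((Fintype.card V * (Fintype.card V - 1) : ℕ) : ℝ) =
        (Fintype.card V : ℝ) * (Fintype.card V - 1) := by
      rcases h6 with h6 | h6
      · push_cast [Nat.cast_sub h6]; ring
      · rw [h6]; simp
    rw [h8] at h7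
    linarith

end Pool.Agent.UPS.FR
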